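import Pool.Agent.Lib.MP_c7af3c_ag.GEN.Interfaces

/-!
# MP_c7af3c_ag, project GEN, module DERIV: transcendence bases and dual derivations
-/

set_option autoImplicit false

namespace Pool.Agent.Gen.H36

open MvPolynomial IntermediateField

/-- derivations of a polynomial ring extend along formally etale extensions -/
theorem exists_ext {k0 A K : Type} [CommRing k0] [CommRing A] [CommRing K] [Algebra k0 A]
    [Algebra k0 K] [Algebra A K] [IsScalarTower k0 A K] [Algebra.FormallyEtale A K]
    (d : Derivation k0 A K) : ∃ D : Derivation k0 K K, ∀ s : A, D (algebraMap A K s) = d s := by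
  let l : TensorProduct A K (Ω[A⁄k0]) →ₗ[K] K :=
    LinearMap.liftBaseChange K d.liftKaehlerDifferential
  let g : Ω[K⁄k0] →ₗ[K] K :=
    l ∘ₗ (KaehlerDifferential.tensorKaehlerEquivOfFormallyEtale k0 A K).symm.toLinearMap
  refine ⟨g.compDer (KaehlerDifferential.D k0 K), fun s => ?_⟩
  show l ((KaehlerDifferential.tensorKaehlerEquivOfFormallyEtale k0 A K).symm
    (KaehlerDifferential.D k0 K (algebraMap A K s))) = d s
  rw [KaehlerDifferential.tensorKaehlerEquivOfFormallyEtale_symm_D_algebraMap]
  simp [l]

section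

variable {k0 K : Type} [Field k0] [CharZero k0] [Field K] [Algebra k0 K] {N : ℕ} {t : Fin N → K}

theorem exists_dual (ht : IsTranscendenceBasis k0 t) :
    ∃ del : Fin N → Derivation k0 K K, ∀ i j, del i (t j) = if i = j then 1 else 0 := by
  let : Algebra (MvPolynomial (Fin N) k0) K := (aeval t : MvPolynomial (Fin N) k0 →ₐ[k0] K).toAlgebra
  have hmap : ∀ f : MvPolynomial (Fin N) k0, algebraMap (MvPolynomial (Fin N) k0) K f = aeval t f :=
    fun f => rfl
  have : IsScalarTower k0 (MvPolynomial (Fin N) k0) K := by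
    refine IsScalarTower.of_algebraMap_eq fun x => ?_
    rw [hmap, MvPolynomial.algebraMap_eq, aeval_C]
  let F : IntermediateField k0 K := adjoin k0 (Set.range t)
  have hmem : ∀ f : MvPolynomial (Fin N) k0, aeval t f ∈ F := by
    intro f
    have h1 : aeval t f ∈ Algebra.adjoin k0 (Set.range t) := by
      rw [Algebra.adjoin_range_eq_range_aeval]
      exact ⟨f, rfl⟩
    exact algebra_adjoin_le_adjoin k0 _ h1
  let : Algebra (MvPolynomial (Fin N) k0) F :=
    ((aeval t : MvPolynomial (Fin N) k0 →ₐ[k0] K).codRestrict F.toSubalgebra hmem).toAlgebra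
  have hmapF : ∀ f : MvPolynomial (Fin N) k0,
      ((algebraMap (MvPolynomial (Fin N) k0) F f : F) : K) = aeval t f := fun f => rfl
  have : IsScalarTower (MvPolynomial (Fin N) k0) F K := IsScalarTower.of_algebraMap_eq fun x => rfl
  have hinj : Function.Injective (algebraMap (MvPolynomial (Fin N) k0) F) := by
    intro f g h
    have h2 := congrArg (fun z : F => (z : K)) h
    exact ht.1 h2
  have : FaithfulSMul (MvPolynomial (Fin N) k0) F :=
    (faithfulSMul_iff_algebraMap_injective _ _).2 hinj
  have : IsFractionRing (MvPolynomial (Fin N) k0) F := by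
    refine IsFractionRing.of_field _ _ fun z => ?_
    obtain ⟨r, s, h⟩ := (mem_adjoin_range_iff k0 t (z : K)).1 z.2
    refine ⟨r, s, ?_⟩
    apply Subtype.ext
    rw [h]
    rfl
  have : Algebra.FormallyEtale (MvPolynomial (Fin N) k0) F :=
    Algebra.FormallyEtale.of_isLocalization (nonZeroDivisors (MvPolynomial (Fin N) k0))
  have : Algebra.IsAlgebraic F K := ht.isAlgebraic_field
  have : CharZero F := charZero_of_injective_algebraMap (algebraMap k0 F).injective
  have : Algebra.IsSeparable F K := inferInstance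
  have : Algebra.FormallyEtale F K := Algebra.FormallyEtale.of_isSeparable F K
  have : Algebra.FormallyEtale (MvPolynomial (Fin N) k0) K :=
    Algebra.FormallyEtale.comp (MvPolynomial (Fin N) k0) F K
  have key : ∀ i : Fin N, ∃ D : Derivation k0 K K, ∀ s : MvPolynomial (Fin N) k0,
      D (algebraMap (MvPolynomial (Fin N) k0) K s) =
        mkDerivation k0 (Pi.single i (1 : K) : Fin N → K) s :=
    fun i => exists_ext _
  choose D hD using key
  refine ⟨D, fun i j => ?_⟩
  have h := hD i (X j)
  rw [hmap, aeval_X, mkDerivation_X] at h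
  rw [h, Pi.single_apply]
  by_cases hij : i = j
  · rw [if_pos hij, if_pos hij.symm]
  · rw [if_neg hij, if_neg (fun h => hij h.symm)]

end

theorem deriv : DerivStatement := by
  intro k0 K _ _ _ _ hfg ι _ a ha
  have hess : Algebra.EssFiniteType k0 K := fg_top_iff.1 hfg
  obtain ⟨S, hS⟩ := hfg
  -- a transcendence basis between `range a` and `range a ∪ S`
  have hrange : AlgebraicIndepOn k0 id (Set.range a) := by
    have := (algebraicIndependent_subtype_range ha.injective).2 ha
    exact this
  have hspan : adjoin k0 (Set.range a ∪ S : Set K) = ⊤ := by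
    rw [eq_top_iff, ← hS]
    exact adjoin.mono k0 _ _ Set.subset_union_right
  have halg : Algebra.IsAlgebraic (Algebra.adjoin k0 (Set.range a ∪ S : Set K)) K := by
    refine ⟨fun z => ?_⟩
    have hz : z ∈ adjoin k0 (Set.range a ∪ S : Set K) := by rw [hspan]; exact mem_top
    rw [mem_adjoin_iff_div] at hz
    obtain ⟨r, hr, s, hs, rfl⟩ := hz
    by_cases hs0 : s = 0
    · rw [hs0, div_zero]
      exact isAlgebraic_zero
    · have h1 : IsAlgebraic (Algebra.adjoin k0 (Set.range a ∪ S : Set K)) r :=
        isAlgebraic_algebraMap (A := K)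
          (⟨r, hr⟩ : Algebra.adjoin k0 (Set.range a ∪ S : Set K))
      have h2 : IsAlgebraic (Algebra.adjoin k0 (Set.range a ∪ S : Set K)) s :=
        isAlgebraic_algebraMap (A := K)
          (⟨s, hs⟩ : Algebra.adjoin k0 (Set.range a ∪ S : Set K))
      rw [div_eq_mul_inv]
      exact h1.mul h2.inv
  obtain ⟨u, hau, huS, hu⟩ := exists_isTranscendenceBasis_between (R := k0) (Set.range a)
    (Set.range a ∪ S) Set.subset_union_left hrange
  have hufin : u.Finite := ((Set.finite_range a).union (Finset.finite_toSet S)).subset huS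
  have : Finite u := hufin
  obtain ⟨N, ⟨f⟩⟩ := Finite.exists_equiv_fin u
  let t : Fin N → K := fun i => (f.symm i : K)
  have ht : IsTranscendenceBasis k0 t := by
    have h1 := (isTranscendenceBasis_equiv f.symm (f := ((↑) : u → K)) (R := k0)).2 hu
    exact h1
  obtain ⟨del, hdel⟩ := exists_dual ht
  have : Algebra.IsAlgebraic (adjoin k0 (Set.range t)) K := ht.isAlgebraic_field
  have hfin : FiniteDimensional (adjoin k0 (Set.range t)) K := by
    have : Algebra.EssFiniteType (adjoin k0 (Set.range t)) K :=
      Algebra.EssFiniteType.of_comp k0 (adjoin k0 (Set.range t)) K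
    obtain ⟨S', hS'⟩ := fg_top (adjoin k0 (Set.range t)) K
    have : FiniteDimensional (adjoin k0 (Set.range t))
        (adjoin (adjoin k0 (Set.range t)) (S' : Set K)) :=
      finiteDimensional_adjoin fun x _ => (Algebra.IsAlgebraic.isAlgebraic x).isIntegral
    rw [hS'] at this
    exact (topEquiv (F := adjoin k0 (Set.range t)) (E := K)).toLinearEquiv.finiteDimensional
  refine ⟨N, ⟨t, ht.1, hfin, del, hdel⟩, fun s => f ⟨a s, hau ⟨s, rfl⟩⟩, ?_, ?_⟩
  · intro s s' h
    have h1 := f.injective h
    exact ha.injective (congrArg Subtype.val h1)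
  · intro s
    show ((f.symm (f ⟨a s, hau ⟨s, rfl⟩⟩) : u) : K) = a s
    rw [Equiv.symm_apply_apply]

end Pool.Agent.Gen.H36
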